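import Pool.Agent.LPR.Stmts

/-!
# Row REL of squad LPR: open subsets of `S × [0, 1]` are stable
-/

set_option autoImplicit false

open Set Topology
open scoped BigOperators

namespace Pool.Agent.LPR.H30

open Pool.Agent.LSG Pool.Agent.LPR

section Maps

variable {S : Type} [TopologicalSpace S] {O : Set (S × unitInterval)}
  {ρ : C(S × unitInterval, ℝ)} {χ : ℕ → ℕ → C(S × unitInterval, ℝ)} {a b : ℕ → ℕ → ℕ → ℝ}
  {w : ℕ → ℕ → ℕ → C(ℝ, ℝ)}

theorem imap_fin (hre1 : Re1Stmt) (hP : Parti O ρ χ) (hS : Slots a b w) (x : S × unitInterval) :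
    ∃ T : Finset (ℕ × ℕ × ℕ), ∀ F : (S × unitInterval) × OnePoint ℕ → ℝ,
      imap a b w χ F x = ∑ α ∈ T, w α.1 α.2.1 α.2.2 (x.2 : ℝ) *
        (χ α.1 α.2.1 (x.1, pt (((x.2 : ℝ) - a α.1 α.2.1 α.2.2) /
            (b α.1 α.2.1 α.2.2 - a α.1 α.2.1 α.2.2))) *
          F ((x.1, pt (((x.2 : ℝ) - a α.1 α.2.1 α.2.2) /
            (b α.1 α.2.1 α.2.2 - a α.1 α.2.1 α.2.2))),
            ((α.2.2 : ℕ) : OnePoint ℕ))) := by
  have h1 := (hre1 S O ρ χ a b w hP hS).1
  have hsub : ({α : ℕ × ℕ × ℕ | w α.1 α.2.1 α.2.2 (x.2 : ℝ) ≠ 0 ∧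
      χ α.1 α.2.1 (x.1, pt (((x.2 : ℝ) - a α.1 α.2.1 α.2.2) /
            (b α.1 α.2.1 α.2.2 - a α.1 α.2.1 α.2.2))) ≠ 0}).Subsingleton := by
    rintro ⟨m, k, n⟩ ⟨hw, hc⟩ ⟨m', k', n'⟩ ⟨hw', hc'⟩
    obtain ⟨e1, e2, e3⟩ := h1 x.1 x.2 _ _ m k n m' k' n' hw hc hw' hc'
    subst e1 e2 e3
    rfl
  refine ⟨hsub.finite.toFinset, fun F => ?_⟩
  unfold imap
  refine finsum_eq_sum_of_support_subset _ ?_
  intro α hα
  rw [Function.mem_support] at hα
  rw [Set.Finite.coe_toFinset, Set.mem_setOf_eq]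
  refine ⟨fun h => hα ?_, fun h => hα ?_⟩
  · rw [h, zero_mul]
  · rw [h, zero_mul, mul_zero]

theorem pmap_fin (hP : Parti O ρ χ) (x : S × unitInterval) :
    ∃ T : Finset (ℕ × ℕ), ∀ (g : S × unitInterval → ℝ) (n : ℕ),
      pmap a b χ g n x = ∑ α ∈ T, χ α.1 α.2 x *
        (g (x.1, pt (a α.1 α.2 n + (x.2 : ℝ) * (b α.1 α.2 n - a α.1 α.2 n))) -
          g (x.1, pt (sg α.1 α.2))) := by
  have hT : ∃ T : Finset (ℕ × ℕ), ∀ m k, χ m k x ≠ 0 → (m, k) ∈ T := by
    by_cases hx : x ∈ O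
    · obtain ⟨T, _, h, _⟩ := hP.cover x hx
      exact ⟨T, h⟩
    · refine ⟨∅, fun m k h => ?_⟩
      have h0 : ρ x = 0 := by
        by_contra h0
        exact hx ((hP.zero x).1 h0)
      have h1 := (hP.supp m k x h).2.1
      rw [h0] at h1
      have h2 : (0 : ℝ) < (1 / 2 : ℝ) ^ (m + 1) := by positivity
      exact absurd h1 (not_lt.2 h2.le)
  obtain ⟨T, hT⟩ := hT
  refine ⟨T, fun g n => ?_⟩
  unfold pmap
  refine finsum_eq_sum_of_support_subset _ ?_
  rintro ⟨m, k⟩ hα
  rw [Function.mem_support] at hα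
  refine Finset.mem_coe.2 (hT m k fun h => hα ?_)
  simp only [h, zero_mul]

end Maps

theorem rel : ChiStmt → SltStmt → Re1Stmt → ReiStmt → RepStmt → ReqStmt → RelStmt := by
  intro hchi hslt hre1 hrei hrep hreq S _ _ O hO
  obtain ⟨ρ, χ, hP⟩ := hchi S O hO
  obtain ⟨a, b, w, hS⟩ := hslt
  choose TI hTI using imap_fin (O := O) hre1 hP hS
  choose TP hTP using pmap_fin (O := O) (a := a) (b := b) hP
  have hR : ∀ g : ↥(Fo O), ∃ G ∈ Sg O, ∀ (x : S × unitInterval) (n : ℕ),
      G (x, (n : OnePoint ℕ)) = pmap a b χ g.1 n x := fun g =>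
    hrep S O ρ χ a b w hP hS g.1 g.2
  choose G hG1 hG2 using hR
  have hG0 : ∀ (g : ↥(Fo O)) (x : S × unitInterval), G g (x, OnePoint.infty) = 0 := fun g x =>
    (hG1 g).2.2 x
  let iL : ↥(Sg O) →ₗ[ℝ] ↥(Fo O) :=
    { toFun := fun F => ⟨imap a b w χ F.1, hrei S O ρ χ a b w hP hS F.1 F.2⟩
      map_add' := by
        intro F F'
        refine Subtype.ext (funext fun x => ?_)
        show imap a b w χ (F.1 + F'.1) x = imap a b w χ F.1 x + imap a b w χ F'.1 x
        rw [hTI x, hTI x, hTI x, ← Finset.sum_add_distrib]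
        refine Finset.sum_congr rfl fun α _ => ?_
        rw [Pi.add_apply, mul_add, mul_add]
      map_smul' := by
        intro c F
        refine Subtype.ext (funext fun x => ?_)
        show imap a b w χ (c • F.1) x = c * imap a b w χ F.1 x
        rw [hTI x, hTI x, Finset.mul_sum]
        refine Finset.sum_congr rfl fun α _ => ?_
        rw [Pi.smul_apply, smul_eq_mul]
        ring }
  let pL : ↥(Fo O) →ₗ[ℝ] ↥(Sg O) :=
    { toFun := fun g => ⟨G g, hG1 g⟩
      map_add' := by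
        intro g g'
        refine Subtype.ext (funext fun y => ?_)
        obtain ⟨x, n⟩ := y
        show G (g + g') (x, n) = G g (x, n) + G g' (x, n)
        induction n using OnePoint.rec with
        | infty => rw [hG0, hG0, hG0, add_zero]
        | coe n =>
          rw [hG2, hG2, hG2, hTP x, hTP x, hTP x, ← Finset.sum_add_distrib]
          refine Finset.sum_congr rfl fun α _ => ?_
          show _ * ((g.1 _ + g'.1 _) - (g.1 _ + g'.1 _)) = _
          ring
      map_smul' := by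
        intro c g
        refine Subtype.ext (funext fun y => ?_)
        obtain ⟨x, n⟩ := y
        show G (c • g) (x, n) = c * G g (x, n)
        induction n using OnePoint.rec with
        | infty => rw [hG0, hG0, mul_zero]
        | coe n =>
          rw [hG2, hG2, hTP x, hTP x, Finset.mul_sum]
          refine Finset.sum_congr rfl fun α _ => ?_
          show _ * (c * g.1 _ - c * g.1 _) = _
          ring }
  have hic : Continuous iL := by
    refine Continuous.subtype_mk (continuous_pi fun x => ?_) _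
    have h1 : (fun F : ↥(Sg O) => imap a b w χ F.1 x) = fun F : ↥(Sg O) =>
        ∑ α ∈ TI x, w α.1 α.2.1 α.2.2 (x.2 : ℝ) *
        (χ α.1 α.2.1 (x.1, pt (((x.2 : ℝ) - a α.1 α.2.1 α.2.2) /
            (b α.1 α.2.1 α.2.2 - a α.1 α.2.1 α.2.2))) *
          F.1 ((x.1, pt (((x.2 : ℝ) - a α.1 α.2.1 α.2.2) /
            (b α.1 α.2.1 α.2.2 - a α.1 α.2.1 α.2.2))),
            ((α.2.2 : ℕ) : OnePoint ℕ))) := funext fun F => hTI x F.1
    rw [h1]
    refine continuous_finset_sum _ fun α _ => ?_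
    refine continuous_const.mul (continuous_const.mul ?_)
    exact (continuous_apply _).comp continuous_subtype_val
  have hpc : Continuous pL := by
    refine Continuous.subtype_mk (continuous_pi fun y => ?_) _
    obtain ⟨x, n⟩ := y
    induction n using OnePoint.rec with
    | infty =>
      have h1 : (fun g : ↥(Fo O) => G g (x, OnePoint.infty)) = fun _ => (0 : ℝ) :=
        funext fun g => hG0 g x
      rw [h1]
      exact continuous_const
    | coe n =>
      have h1 : (fun g : ↥(Fo O) => G g (x, (n : OnePoint ℕ))) = fun g : ↥(Fo O) =>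
          ∑ α ∈ TP x, χ α.1 α.2 x *
        (g.1 (x.1, pt (a α.1 α.2 n + (x.2 : ℝ) * (b α.1 α.2 n - a α.1 α.2 n))) -
          g.1 (x.1, pt (sg α.1 α.2))) := funext fun g => by rw [hG2, hTP x]
      rw [h1]
      refine continuous_finset_sum _ fun α _ => ?_
      refine continuous_const.mul (Continuous.sub ?_ ?_)
      · exact (continuous_apply _).comp continuous_subtype_val
      · exact (continuous_apply _).comp continuous_subtype_val
  refine ⟨⟨iL, hic⟩, ⟨pL, hpc⟩, fun F => ?_⟩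
  refine Subtype.ext (funext fun y => ?_)
  obtain ⟨x, n⟩ := y
  show G (iL F) (x, n) = F.1 (x, n)
  induction n using OnePoint.rec with
  | infty => rw [hG0, F.2.2.2 x]
  | coe n =>
    rw [hG2]
    exact hreq S O ρ χ a b w hP hS F.1 F.2 x n

end Pool.Agent.LPR.H30
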